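import Pool.Agent.V5helper98.HC.Jan

/-!
# Jannsen's conjecture for the schemes generated by abelian varieties with one half of all slope types
of every CM field of degree `2 r ^ k`

Over an algebraic closure of the field with `p` elements each abelian variety is isogenous to the
reduction of an abelian variety of CM type (Honda, Tate). So an abelian variety over the field with
`p ^ a` elements is modelled by `RedAV`: a finite product of CM types `(E i, Φ i)` with Weil numbers
`π i ∈ E i` that satisfy the formula of Shimura and Taniyama. We fix an isomorphism `ν` of the
algebraic closure of `ℚ_p` with `ℂ`; it defines a `p`-adic valuation of `ℂ`, with the value one at
`p`.

Let `K i` (`i` in a finite set) be CM fields of degree `2 g i` which are pairwise independent: for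
`i ≠ k` and all complex embeddings `φ` of `K i` and `ψ` of `K k` some automorphism of `ℂ` is the
identity on `φ (K i)` and the complex conjugation on `ψ (K k)` (this is no condition if there is
only one field). Let `M i` be a function with integral values on the complex embeddings of `K i`,
invariant under complex conjugation (the weights). A CM type `Φ i` of `K i` (a choice of one element
out of each complex conjugate pair of embeddings), `M i` and a real number `κ ≠ 0` prescribe the
slopes `(a + κ M) / 2` (at the embeddings in `Φ i`) and `(a - κ M) / 2` (outside of `Φ i`) of a Weil
number for `p ^ a` in `K i`. If `p` splits completely in `K i` then, by Honda and Tate, all rational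
slopes between `0` and `a` that are symmetric in this way occur for abelian varieties over finite
fields. The case `M = 1`, `κ = a` is the ordinary case.

Let `𝒞` (`OfTypes`) be the class of the abelian varieties `Y` each of whose factors is supersingular or
has a Frobenius endomorphism some power of which is, for some `i`, a Weil number in `K i` with the
slopes prescribed by `Φ i`, `M i` and some real number `κ i ≠ 0` (which depends only on `Y` and `i`).
So `Y` is, over an algebraic closure, isogenous to a product of powers of one abelian variety for each
`i`, with the given slopes, and of a supersingular one.

**The property of the slope types** (`Q`, `JannsenHolds`, the framework of the starting files and of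
`IndependentBlocks` in this folder). `Homology Ω V` are data of motivic homology
`M X i j = H_i^M(X, ℚ(j))` (higher Chow groups) and of `ℓ`-adic homology `E X i j = H_i(X, ℚ_ℓ(j))`
(coefficients extended to `Ω`) of schemes `X` over a finite field, with the Frobenius and the
regulator. The class `Generated` contains the schemes with the homology of the abelian varieties in
`𝒞` (`IsAbelianOf`), the schemes whose motives are direct summands of finite sums of twists of motives
of members, and it contains all of `Z`, `X`, `U = X ∖ Z` if it contains two of them. The property
`Q` of the slope types is:

1. `TB (X)` holds for all schemes `X` of this class, smooth or not, proper or not: for all `i`, `j` the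
   regulator induces an isomorphism of `H_i^M(X, ℚ(j)) ⊗ Ω` with the space of the Frobenius invariant
   elements in `H_i(X, ℚ_ℓ(j)) ⊗ Ω`, and the eigenvalue one of the Frobenius on it is semisimple;
2. if `Z` is an arbitrary closed subscheme of such an `X`, of dimension at most `d`, then the same
   holds for `U = X ∖ Z` and all twists `j ≥ d`;
3. for all schemes obtained from members by open subschemes with arbitrary complements, images under
   proper morphisms, unions of a closed and an open part and direct summands (`Spread`) the cycle
   class maps (`i = 2 j`) are surjective onto the invariants, with semisimple eigenvalue one.

**The theorem.** Let `E` be **any CM field of degree `2 g = 2 r ^ k`**, `r` a prime number, of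
degree at least `16` if `r = 2`. Nothing is assumed about the Galois group of the normal closure of
`E`, and nothing about the subfields of `E`.

* (`HalfOfAll`) For all weights `M` (odd if `r = 2`; if `r` is odd then `r` may divide some, but not
  all of them) the property `Q` is true for **at least one half of all `2 ^ g` types** of `E`.
* (`MostWithWeightsOne`) For the weights `M = 1` (for instance in the ordinary case) it is true for
  at least `(1 - 1 / r) 2 ^ g` of the types.
* (`OneOfTwo`) There is a set `B` of embeddings of `E`, stable under complex conjugation, such that
  for **every** type `Φ` it is true for `Φ` or for the symmetric difference of `Φ` and `B`.
* (`SixteenPercent`) There is a number `g₀` such that for every CM field that is **abelian over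
  `ℚ`**, of any degree `2 g ≥ 2 g₀`, and all odd weights it is true for at least 16 percent of all
  `2 ^ g` types; again nothing is assumed on the subfields.

All this is proved for finitely many pairwise independent fields `K i`; the proportions are then
multiplied.

**What is new.** The class of abelian varieties: `IndependentBlocks` (helper90) treats blocks of
dimension at most five, factors of dimension at most three and CM fields with an irreducible odd part
(for instance of degree twice an odd prime number), all of whose types are allowed. Here the degree
of the CM field is `2 r ^ k`, and nothing is assumed about its subfields and its Galois group; some
condition on the types is then necessary (for `r = 2` one half is the best possible proportion of the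
types without relations: if `E` is multiquadratic and `M = 1` then a proportion
`1 / 2 - O (g ^ (-1 / 2))` of the types is degenerate). The theorems on the types without relations
(`Pool.Agent.Q29.DP`, `Pool.Agent.Q29.EP`) are those of the starting files, where they are applied to
the conjecture of Parshin (`HalfOfAllTimes` in MP_de59b4_ag) only; the passage to `TB (X)` is that of
the starting files and of helper90 (`Pool.Agent.V5helper90.TB`).

**The proof.** If there are relations between the Frobenius eigenvalues of a member of `𝒞` that are
not generated by those of the complex conjugate pairs, then for one of the types
`∑ n φ * e (σ φ) = 0` for all automorphisms `σ` of `ℂ`, where `e = ± M` are the signed weights and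
`n ≠ 0` is an integral function with `n (conj φ) = - n φ`. Let `P` be a Sylow `r`-subgroup of the
Galois group of the normal closure and `R` the lattice of the relations for all `σ` in `P`. If `R ≠ 0`
then it contains an element `n`, not in `r R`, which is fixed modulo `r R` by `P`. If `r` is odd then
`P` has two orbits on the set of the embeddings, and `n` is constant modulo `r` on an orbit `O`; so
the sum of `e` over `O` is divisible by `r`, and it is not after a change of the type at one place.
For `r = 2` see `HalfOfAllTimes` in MP_de59b4_ag. If there are no such relations then all Tate classes
on the members of `𝒞` are combinations of products of Tate classes of degree two.
-/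

namespace Pool.Agent.Results.MP_2ce3e7_ag.HalfOfAllTypes

open Pool.Agent.Q29.EP Pool.Agent.TH170 Pool.Agent.V5helper90.TB Pool.Agent.V5helper98.HC

/-- The property of the slope types `Φ i` with the weights `M i`: Jannsen's conjecture for the schemes
generated by the abelian varieties with these slope types. -/
def Q : TypeProperty := fun p _ ν _ _ K _ _ _ M Φ => JannsenHolds p ν (GS.OfTypes K M Φ)

/-- **Jannsen's conjecture for the schemes generated by abelian varieties with one half of all slope
types of every CM field of degree `2 r ^ k`.** -/
theorem result : HalfOfAll Q ∧ MostWithWeightsOne Q ∧ OneOfTwo Q ∧ SixteenPercent Q :=
  have h := jannsen_without_relations
  ⟨halfOfAll h, mostWithWeightsOne h, oneOfTwo h, sixteenPercent h⟩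

end Pool.Agent.Results.MP_2ce3e7_ag.HalfOfAllTypes
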