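import Pool.Agent.V5helper90.TB.Cover

/-!
# Jannsen's conjecture for schemes generated by abelian varieties of dimension at most five, by products
# of elliptic curves and abelian surfaces, and by abelian varieties in independent blocks

Over an algebraic closure of the field with `p` elements each abelian variety is isogenous to the
reduction of an abelian variety of CM type (Honda, Tate). So an abelian variety over the field with
`p ^ a` elements is modelled by `RedAV`: a finite product of CM types `(E i, Φ i)` with Weil numbers
`π i ∈ E i` that satisfy the formula of Shimura and Taniyama; its cohomology of degree `n`, with
coefficients in an algebraically closed field `Ω`, consists of the alternating `n`-forms on
`Ω ⊗ H_1`, on which the Frobenius endomorphism acts by `π`.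

We consider (`IsCovered`) the following abelian varieties `Y` over finite fields.

* **All abelian varieties of dimension at most five.**
* All `Y` that are, over an algebraic closure, isogenous to a product of a supersingular abelian
  variety and of powers of the factors of an abelian variety `Z` in independent blocks (`InBlocks`),
  with any Newton polygons: the factors of `Z` are divided into blocks, factors in different blocks are
  independent, and each block is either
  * a set of factors of dimension at most three, such that two different factors of dimension three
    whose CM fields have the same Galois closure have Galois CM fields (so **any number of elliptic
    curves and of abelian surfaces** is allowed), or a set of factors whose dimensions have a sum of at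
    most five, but not an elliptic curve and a factor of dimension four, or
  * one factor such that some power of its Frobenius endomorphism lies in a CM field with an
    **irreducible odd part**.

The odd part of a CM field `K` is the space of the rational functions on the set of the complex
embeddings of `K` which change their sign under complex conjugation, with the operation of the
automorphisms of `ℂ`. It is irreducible if the degree of `K` is `2 g` with an **odd prime number** `g` and
`K` contains no imaginary quadratic field (`HasIrreducibleOddPart`; proved here), and also for instance
if the Galois group is as large as possible. Two factors are independent (`Independent`) if one of
them is supersingular, or if powers of their Frobenius endomorphisms lie in CM fields `K`, `K'` such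
that

* every pair of complex embeddings `φ` of `K` and `ψ` of `K'` is flipped: some automorphism of `ℂ` is the
  identity on `φ (K)` and the complex conjugation on `ψ (K')`; or
* the odd part of `K` is irreducible and **the degree of `K'` is smaller than the degree of `K`, or the
  Galois closure of `K'` does not contain that of `K`** (or the same with `K` and `K'` exchanged). In this
  case no relation between the two fields has to be excluded.

For example `Z` may be a product of elliptic curves, abelian surfaces and simple abelian varieties
of odd prime dimensions `≥ 5` whose CM fields (of degree twice the dimension) contain no imaginary
quadratic fields and, if they have the same degree, have different Galois closures.

`Homology Ω V` are data of motivic homology `M X i j = H_i^M(X, ℚ(j))` (higher Chow groups) and of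
`ℓ`-adic homology `E X i j = H_i(X, ℚ_ℓ(j))` (coefficients extended to `Ω`) of schemes `X` over a
finite field, with the Frobenius and the regulator. The class `Generated` contains the schemes with the
homology of the abelian varieties above (`IsAbelianOf`), the schemes whose motives are direct summands
of finite sums of twists of motives of members, and it contains all of `Z`, `X`, `U = X ∖ Z` if it
contains two of them. So it contains for instance all products of curves of genus at most two, of
surfaces dominated by such products and of open subvarieties of them, and all schemes stratified by
such products.

The theorem (`JannsenHolds`): (1) `TB (X)` holds for all schemes `X` of this class, smooth or not,
proper or not: for all `i`, `j` the regulator induces an isomorphism of `H_i^M(X, ℚ(j)) ⊗ Ω` with the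
space of the Frobenius invariant elements in `H_i(X, ℚ_ℓ(j)) ⊗ Ω`, and the eigenvalue one of the Frobenius
on it is semisimple. (2) If `Z` is an arbitrary closed subscheme of such an `X`, of dimension at most
`d`, then the same holds for `U = X ∖ Z` and all twists `j ≥ d`. (3) For all schemes obtained from
members by open subschemes with arbitrary complements, images under proper morphisms, unions of
a closed and an open part and direct summands (`Spread`), for example for all varieties dominated by
members, the cycle class maps (`i = 2 j`) are surjective onto the invariants, with semisimple
eigenvalue one.

Properties of the theory of cycles that are used for the abelian varieties `Y` (`IsChowS`,
`IsMotivic`): Poincaré duality, the formal properties of correspondences, the nilpotence of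
homologically trivial correspondences (Kimura), the operation of the Frobenius endomorphism on higher
Chow groups, the vanishing of the higher rational `K`-groups of a finite field (Quillen), and the
algebraicity of the classes in `AlgS` (theorems of Tate, Markman and Ramón Marí).

What was known. The passage from the Tate conjecture in all degrees to `TB` is due to Soulé, Geisser,
Kahn and Jannsen; the starting result `GeneratedByAbelian` excludes the products of nonisogenous
abelian surfaces with non-Galois CM fields with the same Galois closure, and in dimension five the
exceptional pairs; that the Tate classes are generated by those in `AlgS` in the cases of dimension at
most five and of elementary relations is in the starting results on the Tate conjecture. New are the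
independent blocks: a relation between Frobenius eigenvalues is orthogonal to itself blockwise, since
the functions on the Galois group given by the slopes of weights in different blocks are orthogonal if
the embeddings are flipped; an irreducible odd part makes all pairs flipped if the other field has
smaller degree or smaller Galois closure (a kernel that is not flipped would be an injective
equivariant map of the odd parts); and the irreducibility for odd prime `g` by means of an element of
order `g` of the Galois group and the irreducibility of the cyclotomic polynomial.
-/

namespace Pool.Agent.Results.MP_2ce3e7_ag.IndependentBlocks

open Pool.Agent.V5helper90.TB

/-- **Jannsen's conjecture for schemes generated by abelian varieties of dimension at most five and by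
abelian varieties in independent blocks.** -/
theorem result (p : ℕ) [Fact p.Prime] (ν : PadicAlgCl p ≃+* ℂ) : JannsenHolds p ν IsCovered :=
  jannsen_covered p ν

end Pool.Agent.Results.MP_2ce3e7_ag.IndependentBlocks
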