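import Pool.Agent.V5helper90.NS.Main

/-!
# Jannsen's conjecture for schemes generated by almost all abelian varieties in every Newton stratum, by
# elliptic curves, abelian surfaces and other small abelian varieties

Fix a prime `p`, a nonempty finite set `κ`, dimensions `g i ≥ 1` and, for each `i : κ`, a symmetric Newton
polygon with slopes `s i j` and `1 - s i j` (`j < g i`), `0 ≤ s i j ≤ 1 / 2`, whose break points are
integral (`IsNewtonPolygon`) and which is not the supersingular one (`s i j < 1 / 2` for some `j`). By the
theorem of Honda and Tate `Stratum g s p a` is the (finite) set of the families of isogeny classes of
abelian varieties `A i` of dimension `g i` over the field with `p ^ a` elements with these Newton polygons;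
it consists of the characteristic polynomials `P i` of the Frobenius endomorphisms.

We consider (`IsGeneratedByFamily a g P`) the abelian varieties `Y` over finite fields (finite extensions
or any other finite fields of characteristic `p`) which are, over an algebraic closure, isogenous to a
product of

* a supersingular abelian variety of any dimension,
* **powers of different members `A i` of the family**, with any exponents, and
* powers of factors in a small block (`IsSmallBlock`) of dimensions smaller than the dimensions of the
  members `A i` which occur in `Y`: factors of dimension at most three such that two different factors
  of dimension three whose CM fields have the same Galois closure have Galois CM fields; or factors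
  whose dimensions have a sum of at most five, but not an elliptic curve and a factor of dimension
  four. So **arbitrary elliptic curves** are allowed if `g i ≥ 2`, and **arbitrary elliptic curves and
  abelian surfaces**, in any number, if `g i ≥ 3`.

The theorem: as `a → ∞`, the number of the families in the stratum tends to infinity, and **the
proportion of the families for which Jannsen's conjecture holds for all schemes generated by these
abelian varieties tends to one** (`JannsenHolds`):

1. `TB (X)` holds for all schemes `X` in the smallest class (`Generated`) which contains the abelian
   varieties above, the schemes whose motives are direct summands of finite sums of twists of motives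
   of members, and which contains all of a closed subscheme `Z` of `X`, `X` and `U = X ∖ Z` if it contains
   two of them: for all `i`, `j` the regulator induces an isomorphism of `H_i^M(X, ℚ(j)) ⊗ Ω` with the
   space of the Frobenius invariant elements in `H_i(X, ℚ_ℓ(j)) ⊗ Ω`, and the eigenvalue one of the
   Frobenius on it is semisimple.
2. If `Z` is an arbitrary closed subscheme of such an `X`, of dimension at most `d`, then the same holds
   for `U = X ∖ Z` and all twists `j ≥ d`.
3. For all schemes obtained from members by open subschemes with arbitrary complements, images under
   proper morphisms, unions of a closed and an open part and direct summands (`Spread`), for example
   for all varieties dominated by members, the cycle class maps (`i = 2 j`) are surjective onto the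
   invariants, with semisimple eigenvalue one.

An abelian variety over the field with `p ^ a` elements is modelled by `RedAV`: a finite product of CM
types `(E i, Φ i)` with Weil numbers `π i ∈ E i` that satisfy the formula of Shimura and Taniyama (over
an algebraic closure each abelian variety is isogenous to the reduction of one of CM type); its
cohomology of degree `n`, with coefficients in an algebraically closed field `Ω`, consists of the
alternating `n`-forms on `Ω ⊗ H_1`, on which the Frobenius endomorphism acts by `π`. `Homology Ω V` are
data of motivic homology and of `ℓ`-adic homology of schemes over a finite field, with the Frobenius and
the regulator. Properties of the theory of cycles that are used for the abelian varieties `Y`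
(`IsChowS`, `IsMotivic`), as in the starting result `GeneratedByAbelian`: Poincaré duality, the formal
properties of correspondences, the nilpotence of homologically trivial correspondences (Kimura), the
operation of the Frobenius endomorphism on higher Chow groups, the vanishing of the higher rational
`K`-groups of a finite field (Quillen), and the algebraicity of the classes in `AlgS` (theorems of Tate,
Markman and Ramón Marí).

The starting result `NewtonStrata` for MP_ee618e says that for almost all families in a stratum the
Tate classes on products of powers of the `A i` and a supersingular abelian variety are generated by
divisors; here the `A i` are combined with each other and with arbitrary small abelian varieties,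
and the conclusion is `TB` in all degrees, for all schemes generated by them. The proof: by a sieve
(starting files) almost all families have flips, automorphisms of `ℂ` which exchange one pair of
complex conjugate Frobenius eigenvalues and are the identity on all others. So the odd part of the CM
field `ℚ(π i)` is irreducible and the fields of different members are independent; an irreducible odd
part is independent of all CM fields of smaller degree, since a kernel that is not flipped would be
an injective equivariant map of the odd parts; hence relations between Frobenius eigenvalues can be
divided into relations between the eigenvalues of one member and relations between eigenvalues of the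
small block.
-/

namespace Pool.Agent.Results.MP_2ce3e7_ag.NewtonStrata

open Polynomial Pool.Agent.V5helper90.TB Pool.Agent.V5helper90.NS

/-- **Jannsen's conjecture for schemes generated by almost all abelian varieties in a Newton stratum and
by small abelian varieties.** -/
theorem result {κ : Type} [Fintype κ] [Nonempty κ] (p : ℕ) [Fact p.Prime]
    -- dimensions and Newton polygons, not supersingular
    (g : κ → ℕ) (hg : ∀ i, 1 ≤ g i) (s : ∀ i, Fin (g i) → ℚ) (hs : ∀ i, IsNewtonPolygon (s i))
    (hss : ∀ i, ∃ j, s i j < 1 / 2)
    -- a number of isogeny classes, a proportion of exceptions
    (N : ℕ) (ε : ℝ) (hε : 0 < ε) :
    ∃ a₀ : ℕ, ∀ a, a₀ ≤ a →
      (Stratum g s p a).Finite ∧ N ≤ (Stratum g s p a).ncard ∧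
      ({P ∈ Stratum g s p a |
        ¬ ∀ ν : PadicAlgCl p ≃+* ℂ, JannsenHolds p ν (IsGeneratedByFamily a g P)}.ncard : ℝ) ≤
        ε * ((Stratum g s p a).ncard : ℝ) :=
  density p g hg s hs hss N ε hε
    (fun a P => ∀ ν : PadicAlgCl p ≃+* ℂ, JannsenHolds p ν (IsGeneratedByFamily a g P))
    fun _ _ _ h ν => jannsen_nice h ν

end Pool.Agent.Results.MP_2ce3e7_ag.NewtonStrata
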