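import Pool.Agent.V5helper77.TB.Main

/-!
# Jannsen's generalized Tate-Beilinson conjecture, trilinear forms and tripartite hypergraphs

`T k X i j` are the groups of motivic homology `H_i^M(X, ℚ(j))` (higher Chow groups) and of `ℓ`-adic étale
homology `H_i(X, ℚ_ℓ(j))`, with the Frobenius and the regulator, of the schemes `X` over the finite
fields `k` of characteristic different from `ℓ`. `IsTheory ℓ T` lists the formal properties that are
used: localization sequences, homotopy invariance for affine bundles, products with `𝔾_m`, the groups
of the point, and restriction of scalars to the prime field. `TBconj` is the conjecture `TB(X)`.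

Idea of the proof. Let `W` be the closed subscheme of an affine space that is given by the bilinear
equations `T(x, y, ·) = 0`. The hypersurface `T(x, y, z) = 1` is an affine bundle over the complement of
`W`, so that `TB` for it is equivalent to `TB` for `W`. Every affine scheme `X` of finite type has a
presentation by polynomials with coefficients `0` and `1`, and `X × 𝔾_m × 𝔾_m` is the difference of
two such schemes `W` which describe the monomials in the coordinates as products of the values of two
proportional vectors. The dimension is under control because `W` is, over the locus in the space of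
the variables of the shortest block where the rank of `T` is constant, a vector bundle, and conversely
every closed subscheme of an affine space is such a locus for matrices of linear forms.
-/

set_option autoImplicit false

open CategoryTheory AlgebraicGeometry
open Pool.Agent.W495.FM Pool.Agent.Y116.UV Pool.Agent.Z125.UN Pool.Agent.Q193.LT
  Pool.Agent.Q282.UZ Pool.Agent.V5helper77.TB

namespace Pool.Agent.Results.MP_2ce3e7_ag.TrilinearForms

/-- **Jannsen's conjecture and trilinear forms.**
(1) `TB(X)` holds for all separated schemes `X` of finite type over all finite fields (of characteristic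
different from `ℓ`) if and only if it holds for the smooth affine cubic hypersurfaces
`∑_{(i, j, k) ∈ H} x_i y_j z_k = 1` over the prime fields, `H` any tripartite hypergraph.
(2) It is also equivalent to `TB` for the closed subschemes of affine spaces over the prime fields given
by systems of bilinear equations `∑_{(i, j) ∈ E_l} x_i y_j = 0`, `l = 1, …, c`, with at most three terms
in every equation.
(3) Over every finite field `k` and for every `n`, the following are equivalent: `TB(X)` for all
separated schemes of finite type of dimension at most `n`; the same for the smooth ones; `TB` for the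
hypersurfaces `T(x, y, z) = 1`, `T` a trilinear form over `k` one of whose three blocks of variables has at
most `n + 2` variables.
(4) In particular the known cases of `TB` in dimension at most one imply `TB` for all hypersurfaces
`T(x, y, z) = 1` with a block of at most three variables. -/
theorem result {Ω : Type} [Field Ω] [CharZero Ω] {ℓ : ℕ} (hℓ : ℓ.Prime)
    (T : ∀ (k : Type) [Field k] [Finite k], Sch k → ℤ → ℤ → Node Ω) (hT : IsTheory ℓ T) :
    ((∀ (k : Type) [Field k] [Finite k], (ℓ : k) ≠ 0 → ∀ X : Sch k, FT True X → TBconj (T k) X) ↔
      ∀ (p : ℕ) [Fact p.Prime], p ≠ ℓ → ∀ (a b c : ℕ) (H : Finset (Fin a × Fin b × Fin c)),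
        TBconj (T (ZMod p)) (tripS (ZMod p) H)) ∧
    ((∀ (k : Type) [Field k] [Finite k], (ℓ : k) ≠ 0 → ∀ X : Sch k, FT True X → TBconj (T k) X) ↔
      ∀ (p : ℕ) [Fact p.Prime], p ≠ ℓ → ∀ (a b c : ℕ) (E : Fin c → Finset (Fin a × Fin b)),
        (∀ l, (E l).card ≤ 3) → TBconj (T (ZMod p)) (sysS (ZMod p) E)) ∧
    ∀ (k : Type) [Field k] [Finite k], (ℓ : k) ≠ 0 →
      (∀ n : ℕ,
        ((∀ X : Sch k, FT True X → topologicalKrullDim X.left ≤ n → TBconj (T k) X) ↔
          ∀ (a b c : ℕ) (S : Fin a → Fin b → Fin c → k), (a ≤ n + 2 ∨ b ≤ n + 2 ∨ c ≤ n + 2) →
            TBconj (T k) (hypS S)) ∧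
        ((∀ X : Sch k, FT True X → Smooth X.hom → topologicalKrullDim X.left ≤ n →
            TBconj (T k) X) ↔
          ∀ (a b c : ℕ) (S : Fin a → Fin b → Fin c → k), (a ≤ n + 2 ∨ b ≤ n + 2 ∨ c ≤ n + 2) →
            TBconj (T k) (hypS S))) ∧
      ((∀ X : Sch k, FT True X → Smooth X.hom → topologicalKrullDim X.left ≤ 1 → TBconj (T k) X) →
        ∀ (a b c : ℕ) (S : Fin a → Fin b → Fin c → k), (a ≤ 3 ∨ b ≤ 3 ∨ c ≤ 3) →
          TBconj (T k) (hypS S)) := by
  refine ⟨graph_iff hℓ hT, three_terms_iff hℓ hT, fun k _ _ hk => ?_⟩
  have hB := bnd_tb (hT.field k hk)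
  refine ⟨fun n => ⟨dim_iff hB n, smooth_iff hB n⟩, fun h => ?_⟩
  exact (smooth_iff hB 1).mp fun X hX hs hn => h X hX hs (by exact_mod_cast hn)

end Pool.Agent.Results.MP_2ce3e7_ag.TrilinearForms
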